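import Pool.Agent.H269Av1.Shape
import Pool.Agent.H269Av1.Rooted

/-!
# MP_635878_co : trees maximising the average size of 1-nearly independent sets

We prove that for every `n ≥ 4` the tree `R_n` attains the maximum of `av₁` over all trees with
`n` vertices.

The 1-nearly independent sets are sorted by their edge `uv`.  In the class of `uv` every other
vertex lies in at most half of the sets, a neighbour of `u` or `v` lies in none, and two adjacent
vertices together account for at most `2/3`.  Hence the average over the class is at most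
`(n + 1) / 2 - 1 / 3` unless the tree is `R_n`, and this is at most `av₁(R_n)` for `n ≥ 10`.  The
trees with at most nine vertices are treated by a computation with rooted trees
(`H269Av1.small_bound`).

The definitions (`H269Av1.NearlyIndep`, `H269Av1.av1`, `H269Av1.R`) are in
`Pool/Agent/H269Av1/Basic.lean`.
-/

namespace Pool.Agent.Results.MP_635878_co.MaxTree

open H269Av1

theorem growth (m : ℕ) (hm : 7 ≤ m) : 6 * m ^ 2 ≤ 2 ^ (m + 1) + 7 * m + 2 := by
  induction m, hm using Nat.le_induction with
  | base => norm_num
  | succ k hk ih =>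
    have : 2 ^ (k + 1 + 1) = 2 * 2 ^ (k + 1) := by ring
    rw [this]
    nlinarith

/-- **Answer to the question.**  For every `n ≥ 4`, `R_n` is a tree and attains the maximum of the
average size `av₁` of the 1-nearly independent sets over all trees with `n` vertices. -/
theorem result : ∀ n : ℕ, 4 ≤ n → (R n).IsTree ∧
    ∀ (V : Type) [Fintype V] (T : SimpleGraph V), T.IsTree → Fintype.card V = n →
      av1 T ≤ av1 (R n) := by
  classical
  intro n hn
  have hRs := R_shape n hn
  refine ⟨hRs.isTree, ?_⟩
  intro V _ T hT hc
  obtain ⟨m, rfl⟩ : ∃ m, n = m + 3 := ⟨n - 3, by omega⟩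
  have hRσ := hRs.sigma1 m (by simp)
  have hRt := hRs.total1 m (by simp)
  have hRpos : 0 < sigma1 (R (m + 3)) := by rw [hRσ]; positivity
  by_cases h0 : sigma1 T = 0
  · unfold av1
    rw [h0]
    simp only [Nat.cast_zero, div_zero]
    positivity
  have hTpos : 0 < sigma1 T := Nat.pos_of_ne_zero h0
  -- it suffices to compare products
  suffices h : total1 T * sigma1 (R (m + 3)) ≤ total1 (R (m + 3)) * sigma1 T by
    unfold av1
    rw [div_le_div_iff₀ (by exact_mod_cast hTpos) (by exact_mod_cast hRpos)]
    exact_mod_cast h
  by_cases h9 : Fintype.card V ≤ 9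
  · have h := small_bound hT m hc.symm (by omega) h9
    rw [← hRt, ← hRσ] at h
    nlinarith
  · rcases dichotomy hT (by omega) with hb | ⟨w, v, u, hs⟩
    · have h1 := global_bound T (3 * Fintype.card V + 1) hb
      rw [hc] at h1
      have h2 := growth m (by omega)
      -- `(3 n + 1) σ₁(R) ≤ 6 S₁(R)`
      have h3 : (3 * (m + 3) + 1) * sigma1 (R (m + 3)) ≤ 6 * total1 (R (m + 3)) := by
        have : 6 * total1 (R (m + 3)) = 3 * (m * 2 ^ m + 4 * 2 ^ m + 10 * m + 4) := by
          rw [← hRt]; ring
        rw [this, hRσ]
        have e : 2 ^ (m + 1) = 2 * 2 ^ m := by ring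
        rw [e] at h2
        nlinarith
      have h4 : 6 * (total1 T * sigma1 (R (m + 3))) ≤ 6 * (total1 (R (m + 3)) * sigma1 T) := by
        calc 6 * (total1 T * sigma1 (R (m + 3))) = (6 * total1 T) * sigma1 (R (m + 3)) := by ring
          _ ≤ ((3 * (m + 3) + 1) * sigma1 T) * sigma1 (R (m + 3)) :=
              Nat.mul_le_mul_right _ h1
          _ = ((3 * (m + 3) + 1) * sigma1 (R (m + 3))) * sigma1 T := by ring
          _ ≤ (6 * total1 (R (m + 3))) * sigma1 T := Nat.mul_le_mul_right _ h3
          _ = 6 * (total1 (R (m + 3)) * sigma1 T) := by ring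
      omega
    · have h1 := hs.sigma1 m hc.symm
      have h2 := hs.total1 m hc.symm
      have h3 : total1 T = total1 (R (m + 3)) := by omega
      rw [h3, h1, hRσ]

end Pool.Agent.Results.MP_635878_co.MaxTree
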